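import Pool.Agent.Results.MP_15eae7_nt.BothQuestions
import Pool.Agent.U513.AP.RatHeight

/-!
# Periods of the rational periodic points of `b x + c / x` for the rational approximations `b` of a real number

The starting file bounds the number of the rational `b` of height at most `H` for which some map `b x + c / x`, `c ≠ 0` rational, has a
rational periodic point of period other than `1`, `2`, `4`. Here: for all real `α` outside of a set of Hausdorff dimension at most
`1 / τ`, there are no such `b` among the rational numbers with `|α - b| ≤ den(b) ^ (-τ)`, up to finitely many.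
-/

set_option autoImplicit false

open Finset MeasureTheory

namespace Pool.Agent.Results.MP_15eae7_nt.Approximations

open Pool.Agent.U513.AP
open Pool.Agent.Helper905.Manes (Exceptional)

/-- For every `τ > 0` there is a set `E` of Hausdorff dimension at most `1 / τ` (of measure zero if `τ > 1`) such that for all
real `α` outside of `E` all but finitely many rational `b` with `|α - b| ≤ den(b) ^ (-τ)` are not exceptional: for ALL rational
`c ≠ 0` all rational periodic points of `b x + c / x` have the period `1`, `2` or `4`. -/
theorem result (τ : ℝ) (hτ : 0 < τ) :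
    ∃ E : Set ℝ, dimH E ≤ ENNReal.ofReal (1 / τ) ∧ (1 < τ → volume E = 0) ∧
      ∀ α : ℝ, α ∉ E → {b : ℚ | Exceptional b ∧ |α - b| ≤ (b.den : ℝ) ^ (-τ)}.Finite := by
  classical
  refine rat_law_height (B := {b : ℚ | Exceptional b}) (by norm_num) (fun ε hε => ?_) hτ
  obtain ⟨K, hK⟩ := BothQuestions.result.2.2.1 ε hε
  refine ⟨K, fun H hH => ?_⟩
  obtain ⟨h1, h2⟩ := hK H
  have hsub : {b : ℚ | b ∈ {b : ℚ | Exceptional b} ∧ b.num.natAbs ≤ H ∧ b.den ≤ H} ⊆
      {b : ℚ | Exceptional b ∧ b.num.natAbs ≤ H} := fun b hb => ⟨hb.1, hb.2.1⟩
  exact (Nat.cast_le.2 (Set.ncard_le_ncard hsub h1)).trans h2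

end Pool.Agent.Results.MP_15eae7_nt.Approximations
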